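import Pool.Agent.Y771.IZ.Main

set_option autoImplicit false

/-!
# The class `I₀` consists exactly of the exponentials

A standard p-function all of whose factors are infinitely divisible is an exponential
`t ↦ exp (-lam t)`, and conversely.  In particular every infinitely divisible standard p-function
which is not an exponential (the truncated exponentials with any `lam, tau > 0` among them) has a
factor which is not infinitely divisible.

Proof.  The exponent of an infinitely divisible standard p-function is concave.  If it is not
linear, two cuts along supporting lines split off a concave summand `φ` with finite slope at `0`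
which is constant exactly from some point `d > 0` on.  For a small `C²` bump `K` supported in
`[2 d, 3 d]` both `exp (-φ/2) (1 + K)` and `exp (-φ/2) / (1 + K)` are standard p-functions: on
fine skeletons the tails of the gap distribution satisfy a Harnack inequality and decay by a
definite factor over a window shorter than `d`, and this bounds the gap probabilities from below.
-/

open Filter Topology MeasureTheory
open scoped NNReal

namespace Pool.Agent.Results.MP_0f714a_pr.OnlyExponentials

/-- `p` is a p-function: `p 0 = 1`, `p` has values in `[0,1]`, and there are a probability space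
`(Ω, P)` and measurable events `E t` (`t ≥ 0`) such that for all `t 0 ≤ t 1 ≤ ... ≤ t n`,
`P (E (t 0) ∩ ... ∩ E (t n)) = p (t 0) * P (E (t 1 - t 0) ∩ ... ∩ E (t n - t 0))`
(for `n = 0` the intersection on the right is the whole space). -/
def IsPFunction (p : ℝ≥0 → ℝ) : Prop :=
  p 0 = 1 ∧ (∀ t, 0 ≤ p t ∧ p t ≤ 1) ∧
  ∃ (Ω : Type) (_ : MeasurableSpace Ω) (P : Measure Ω) (E : ℝ≥0 → Set Ω),
    IsProbabilityMeasure P ∧ (∀ t, MeasurableSet (E t)) ∧
    ∀ (n : ℕ) (t : Fin (n + 1) → ℝ≥0), Monotone t →
      P.real (⋂ i, E (t i)) = p (t 0) * P.real (⋂ i : Fin n, E (t i.succ - t 0))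

/-- The set of standard p-functions: p-functions with `p t → 1` as `t → 0`. -/
def IsStd (p : ℝ≥0 → ℝ) : Prop := IsPFunction p ∧ Tendsto p (𝓝 0) (𝓝 1)

/-- `q` is a factor of `p`: `p = q r` pointwise with `q`, `r` standard p-functions. -/
def IsFactor (q p : ℝ≥0 → ℝ) : Prop := IsStd q ∧ ∃ r, IsStd r ∧ ∀ t, p t = q t * r t

/-- `p` is infinitely divisible: for every `n ≥ 1` it is the `n`-th power of a standard
p-function. -/
def InfDiv (p : ℝ≥0 → ℝ) : Prop := ∀ n : ℕ, 1 ≤ n → ∃ q, IsStd q ∧ ∀ t, q t ^ n = p t

/-- The class `I₀`: the standard p-functions all of whose factors are infinitely divisible. -/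
def MemI0 (p : ℝ≥0 → ℝ) : Prop := IsStd p ∧ ∀ q, IsFactor q p → InfDiv q

/-- A function on the half line belongs to the class `I₀` if and only if it is an exponential
`t ↦ exp (-lam t)` with `lam ≥ 0`. -/
theorem result (p : ℝ≥0 → ℝ) :
    MemI0 p ↔ ∃ lam : ℝ≥0, ∀ t : ℝ≥0, p t = Real.exp (-((lam : ℝ) * (t : ℝ))) :=
  Pool.Agent.Y771.IZ.memI0_iff p

end Pool.Agent.Results.MP_0f714a_pr.OnlyExponentials
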